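import Pool.Agent.W533.PP.Stm

/-!
# PINS: plane permutations and active sites (helper29)
-/

set_option autoImplicit false

namespace Pool.Agent.W29.PP

open Pool.Agent.W533.PP

theorem pins : PINS := by
  intro n v τ
  constructor
  · intro h
    constructor
    · rintro i j k l hij hk hkl ⟨h1, h2, h3⟩
      refine h i.castSucc j.castSucc k.castSucc l.castSucc hij hk hkl ⟨?_, ?_, ?_⟩ <;>
        rw [ins_castSucc, ins_castSucc, Fin.succAbove_lt_succAbove_iff] <;> assumption
    · rintro i j k hij hk ⟨h1, h2, h3⟩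
      refine h i.castSucc j.castSucc k.castSucc (Fin.last n) hij hk (Fin.castSucc_lt_last k)
        ⟨?_, ?_, ?_⟩
      · rw [ins_castSucc, ins_castSucc, Fin.succAbove_lt_succAbove_iff]
        exact h1
      · rw [ins_castSucc, ins_last, Fin.succAbove_lt_iff_castSucc_lt]
        exact h2
      · rw [ins_castSucc, ins_last, Fin.lt_succAbove_iff_le_castSucc]
        exact h3
  · rintro ⟨hP, hA⟩ i j k l hij hk hkl ⟨h1, h2, h3⟩
    have hij' : i.val < j.val := hij
    have hkl' : k.val < l.val := hkl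
    have hl := l.isLt
    obtain ⟨i, rfl⟩ : ∃ i' : Fin n, i'.castSucc = i := ⟨⟨i.val, by omega⟩, rfl⟩
    obtain ⟨j, rfl⟩ : ∃ j' : Fin n, j'.castSucc = j := ⟨⟨j.val, by omega⟩, rfl⟩
    obtain ⟨k, rfl⟩ : ∃ k' : Fin n, k'.castSucc = k := ⟨⟨k.val, by omega⟩, rfl⟩
    rw [ins_castSucc, ins_castSucc, Fin.succAbove_lt_succAbove_iff] at h1
    induction l using Fin.lastCases with
    | last =>
      rw [ins_castSucc, ins_last, Fin.succAbove_lt_iff_castSucc_lt] at h2
      rw [ins_castSucc, ins_last, Fin.lt_succAbove_iff_le_castSucc] at h3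
      exact hA i j k hij hk ⟨h1, h2, h3⟩
    | cast l =>
      rw [ins_castSucc, ins_castSucc, Fin.succAbove_lt_succAbove_iff] at h2 h3
      exact hP i j k l hij hk hkl ⟨h1, h2, h3⟩

end Pool.Agent.W29.PP
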